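import Mathlib

open Subgroup

namespace Pool.Agent.Results.MP_4f7194_al.Stallings

/-- An element `p` of the free group on `Fin n` is primitive if it belongs to some free basis. -/
def IsPrimitiveElt {n : ℕ} (p : FreeGroup (Fin n)) : Prop :=
  ∃ (ι : Type) (b : FreeGroupBasis ι (FreeGroup (Fin n))) (i : ι), b i = p

section General

variable {F : Type*} [Group F]

/-- Kernels of surjections onto nonabelian simple groups, described by the properties we use. -/
structure NS (K : Subgroup F) : Prop where
  normal : K.Normal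
  ne_top : K ≠ ⊤
  max : ∀ N : Subgroup F, N.Normal → K ≤ N → N = K ∨ N = ⊤
  prime : ∀ A B : Subgroup F, A.Normal → B.Normal → A ⊓ B ≤ K → A ≤ K ∨ B ≤ K

lemma NS.of_ker {S : Type*} [Group S] [IsSimpleGroup S] (hS : ∃ s t : S, s * t ≠ t * s)
    (φ : F →* S) (hφ : Function.Surjective φ) : NS φ.ker where
  normal := inferInstance
  ne_top := by
    intro h
    have h1 : ∀ s : S, s = 1 := by
      intro s
      obtain ⟨f, rfl⟩ := hφ s
      have : f ∈ φ.ker := by rw [h]; trivial
      exact this
    obtain ⟨s, t, hst⟩ := hS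
    rw [h1 s, h1 t] at hst
    exact hst rfl
  max := by
    intro N hN hKN
    have hmap : (N.map φ).Normal := hN.map φ hφ
    rcases hmap.eq_bot_or_eq_top with h | h
    · left
      apply le_antisymm _ hKN
      intro x hx
      have : φ x ∈ N.map φ := Subgroup.mem_map_of_mem φ hx
      rw [h, Subgroup.mem_bot] at this
      exact this
    · right
      rw [eq_top_iff]
      intro x _
      have : φ x ∈ N.map φ := by rw [h]; trivial
      obtain ⟨y, hy, hyx⟩ := this
      have h2 : y⁻¹ * x ∈ φ.ker := by
        rw [MonoidHom.mem_ker, map_mul, map_inv, hyx, inv_mul_cancel]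
      have := N.mul_mem hy (hKN h2)
      simpa using this
  prime := by
    intro A B hA hB hAB
    by_contra hcon
    push Not at hcon
    obtain ⟨hA1, hB1⟩ := hcon
    have hmapA : (A.map φ).Normal := hA.map φ hφ
    have hmapB : (B.map φ).Normal := hB.map φ hφ
    have hAt : A.map φ = ⊤ := by
      rcases hmapA.eq_bot_or_eq_top with h | h
      · exfalso
        apply hA1
        intro x hx
        have : φ x ∈ A.map φ := Subgroup.mem_map_of_mem φ hx
        rw [h, Subgroup.mem_bot] at this
        exact this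
      · exact h
    have hBt : B.map φ = ⊤ := by
      rcases hmapB.eq_bot_or_eq_top with h | h
      · exfalso
        apply hB1
        intro x hx
        have : φ x ∈ B.map φ := Subgroup.mem_map_of_mem φ hx
        rw [h, Subgroup.mem_bot] at this
        exact this
      · exact h
    obtain ⟨s, t, hst⟩ := hS
    have hs : s ∈ A.map φ := by rw [hAt]; trivial
    have ht : t ∈ B.map φ := by rw [hBt]; trivial
    obtain ⟨a, ha, rfl⟩ := hs
    obtain ⟨b, hb, rfl⟩ := ht
    apply hst
    have h1 : a * b * a⁻¹ * b⁻¹ ∈ A ⊓ B := by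
      constructor
      · have : b * a⁻¹ * b⁻¹ ∈ A := hA.conj_mem _ (A.inv_mem ha) b
        have := A.mul_mem ha this
        simpa [mul_assoc] using this
      · have : a * b * a⁻¹ ∈ B := hB.conj_mem _ hb a
        exact B.mul_mem this (B.inv_mem hb)
    have h2 := hAB h1
    rw [MonoidHom.mem_ker] at h2
    simp only [map_mul, map_inv] at h2
    rw [mul_inv_eq_one, mul_inv_eq_iff_eq_mul] at h2
    exact h2

lemma normal_inf_finset (T : Finset (Subgroup F)) (hT : ∀ K ∈ T, K.Normal) :
    (T.inf id).Normal := by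
  classical
  induction T using Finset.induction_on with
  | empty =>
    rw [Finset.inf_empty]
    infer_instance
  | insert K T hK ih =>
    rw [Finset.inf_insert]
    have h1 : K.Normal := hT K (Finset.mem_insert_self _ _)
    have h2 : (T.inf id).Normal := ih fun K' hK' => hT K' (Finset.mem_insert_of_mem hK')
    exact Subgroup.normal_inf_normal K (T.inf id)

lemma inf_not_le (T : Finset (Subgroup F)) (hT : ∀ K ∈ T, NS K) {K0 : Subgroup F} (h0 : NS K0)
    (h0T : K0 ∉ T) (N : Subgroup F) (hN : N.Normal) (hNK : ¬ N ≤ K0) :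
    ¬ (N ⊓ T.inf id ≤ K0) := by
  classical
  induction T using Finset.induction_on with
  | empty => simpa using hNK
  | insert K T hK ih =>
    have hT' : ∀ K ∈ T, NS K := fun K' hK' => hT K' (Finset.mem_insert_of_mem hK')
    have h0T' : K0 ∉ T := fun h => h0T (Finset.mem_insert_of_mem h)
    have hne : K0 ≠ K := fun h => h0T (h ▸ Finset.mem_insert_self _ _)
    have hKNS : NS K := hT K (Finset.mem_insert_self _ _)
    have ih' := ih hT' h0T'
    rw [Finset.inf_insert]
    intro hle
    have hnorm : (N ⊓ T.inf id).Normal := by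
      have := hN
      have := normal_inf_finset T (fun K' hK' => (hT' K' hK').normal)
      exact Subgroup.normal_inf_normal N (T.inf id)
    have h3 : (N ⊓ T.inf id) ⊓ K ≤ K0 := by
      refine le_trans ?_ hle
      intro x hx
      exact ⟨hx.1.1, ⟨hx.2, hx.1.2⟩⟩
    rcases h0.prime _ _ hnorm hKNS.normal h3 with h | h
    · exact ih' h
    · rcases hKNS.max K0 h0.normal h with h' | h'
      · exact hne h'
      · exact h0.ne_top h'

/-- Chinese remainder for maximal normal subgroups with nonabelian simple quotient. -/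
lemma crt (T : Finset (Subgroup F)) (hT : ∀ K ∈ T, NS K) (N : Subgroup F) (hN : N.Normal)
    (hNK : ∀ K ∈ T, ¬ N ≤ K) (g : Subgroup F → F) :
    ∃ z ∈ N, ∀ K ∈ T, (g K)⁻¹ * z ∈ K := by
  classical
  have key : ∀ B : Finset (Subgroup F), B ⊆ T →
      ∃ z ∈ N, (∀ K ∈ B, (g K)⁻¹ * z ∈ K) ∧ ∀ K ∈ T, K ∉ B → z ∈ K := by
    intro B
    induction B using Finset.induction_on with
    | empty =>
      intro _
      exact ⟨1, N.one_mem, by simp, fun K _ _ => K.one_mem⟩
    | insert K0 B hK0 ih =>
      intro hB
      obtain ⟨z, hzN, hz1, hz2⟩ := ih (fun K hK => hB (Finset.mem_insert_of_mem hK))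
      have hK0T : K0 ∈ T := hB (Finset.mem_insert_self _ _)
      have h0 := hT K0 hK0T
      set D : Subgroup F := N ⊓ (T.erase K0).inf id with hD
      have hTe : ∀ K ∈ T.erase K0, NS K := fun K hK => hT K (Finset.mem_of_mem_erase hK)
      have hDn : D.Normal := by
        have := hN
        have := normal_inf_finset (T.erase K0) (fun K' hK' => (hTe K' hK').normal)
        exact Subgroup.normal_inf_normal N _
      have hDK : ¬ D ≤ K0 :=
        inf_not_le (T.erase K0) hTe h0 (Finset.notMem_erase _ _) N hN (hNK K0 hK0T)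
      have hsup : D ⊔ K0 = ⊤ := by
        have hn : (D ⊔ K0).Normal := by
          have := hDn
          have := h0.normal
          exact Subgroup.sup_normal D K0
        rcases h0.max (D ⊔ K0) hn le_sup_right with h | h
        · exfalso
          apply hDK
          rw [← h]
          exact le_sup_left
        · exact h
      have hg : g K0 ∈ D ⊔ K0 := by rw [hsup]; trivial
      have := h0.normal
      rw [Subgroup.mem_sup_of_normal_right] at hg
      obtain ⟨d, hd, k, hk, hdk⟩ := hg
      have hdT : ∀ K ∈ T.erase K0, d ∈ K := by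
        intro K hK
        have : (T.erase K0).inf id ≤ K := Finset.inf_le (f := id) hK
        exact this hd.2
      refine ⟨z * d, N.mul_mem hzN hd.1, ?_, ?_⟩
      · intro K hK
        rcases Finset.mem_insert.mp hK with rfl | hK'
        · rw [← hdk]
          have hzK := hz2 K hK0T hK0
          have : (d * k)⁻¹ * (z * d) = k⁻¹ * (d⁻¹ * z * d⁻¹⁻¹) := by group
          rw [this]
          exact K.mul_mem (K.inv_mem hk) (h0.normal.conj_mem z hzK d⁻¹)
        · have hne : K ≠ K0 := fun h => hK0 (h ▸ hK')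
          have h1 := hz1 K hK'
          have h2 := hdT K (Finset.mem_erase.mpr ⟨hne, hB hK⟩)
          have := K.mul_mem h1 h2
          simpa [mul_assoc] using this
      · intro K hKT hKB
        have hne : K ≠ K0 := fun h => hKB (h ▸ Finset.mem_insert_self _ _)
        have h1 := hz2 K hKT (fun h => hKB (Finset.mem_insert_of_mem h))
        have h2 := hdT K (Finset.mem_erase.mpr ⟨hne, hKT⟩)
        exact K.mul_mem h1 h2
  obtain ⟨z, hz, h1, -⟩ := key T (Finset.Subset.refl _)
  exact ⟨z, hz, h1⟩

lemma exists_not_mem {K : Subgroup F} (hK : NS K) : ∃ t : F, t ∉ K := by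
  by_contra h
  push Not at h
  exact hK.ne_top (by rw [eq_top_iff]; intro x _; exact h x)

lemma main_comb {m : ℕ} (Φ : Fin (m + 1) → Finset (Subgroup F)) (hΦ : ∀ i, ∀ K ∈ Φ i, NS K)
    (hdisj : ∀ i j, i ≠ j → ∀ K ∈ Φ i, K ∉ Φ j) (x : Fin (m + 1) → F)
    (hx : normalClosure (Set.range x) = ⊤) :
    ∃ r : Fin (m + 1) → F, normalClosure (Set.range r) = ⊤ ∧
      ∀ i j, i ≠ j → ∀ K ∈ Φ i, r j ∈ K := by
  classical
  set T : Finset (Subgroup F) := Finset.univ.biUnion Φ with hTdef
  have hT : ∀ K ∈ T, NS K := by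
    intro K hK
    obtain ⟨i, -, hi⟩ := Finset.mem_biUnion.mp hK
    exact hΦ i K hi
  have hΦT : ∀ i, ∀ K ∈ Φ i, K ∈ T := fun i K hK =>
    Finset.mem_biUnion.mpr ⟨i, Finset.mem_univ _, hK⟩
  have hex : ∀ K : Subgroup F, ∃ t : F, NS K → t ∉ K := by
    intro K
    by_cases h : NS K
    · obtain ⟨t, ht⟩ := exists_not_mem h
      exact ⟨t, fun _ => ht⟩
    · exact ⟨1, fun h' => absurd h' h⟩
  choose τ hτ using hex
  -- Step A
  set N : Subgroup F := normalClosure {y | ∃ j : Fin (m + 1), j ≠ 0 ∧ x j = y} with hNdef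
  have hN : N.Normal := normalClosure_normal
  have hxN : ∀ j, j ≠ 0 → x j ∈ N := fun j hj => subset_normalClosure ⟨j, hj, rfl⟩
  have stepA : ∃ z ∈ N, ∀ K ∈ T, x 0 * z ∉ K := by
    obtain ⟨z, hzN, hz⟩ := crt (T.filter (fun K => ¬ N ≤ K))
      (fun K hK => hT K (Finset.mem_filter.mp hK).1) N hN
      (fun K hK => (Finset.mem_filter.mp hK).2)
      (fun K => if x 0 ∈ K then τ K else 1)
    refine ⟨z, hzN, ?_⟩
    intro K hK hmem
    by_cases hNK : N ≤ K
    · have h1 : x 0 ∈ K := by
        have := K.mul_mem hmem (K.inv_mem (hNK hzN))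
        simpa using this
      have h2 : normalClosure (Set.range x) ≤ K := by
        have := (hT K hK).normal
        apply normalClosure_le_normal
        rintro _ ⟨j, rfl⟩
        by_cases hj : j = 0
        · rw [hj]; exact h1
        · exact hNK (hxN j hj)
      rw [hx, top_le_iff] at h2
      exact (hT K hK).ne_top h2
    · have h1 := hz K (Finset.mem_filter.mpr ⟨hK, hNK⟩)
      by_cases h0 : x 0 ∈ K
      · rw [if_pos h0] at h1
        have hzK : z ∈ K := by
          have := K.mul_mem (K.inv_mem h0) hmem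
          simpa using this
        have h3 := K.mul_mem h1 (K.inv_mem hzK)
        rw [mul_inv_cancel_right] at h3
        exact hτ K (hT K hK) (K.inv_mem_iff.mp h3)
      · rw [if_neg h0] at h1
        simp only [inv_one, one_mul] at h1
        apply h0
        have := K.mul_mem hmem (K.inv_mem h1)
        simpa using this
  obtain ⟨z0, hz0N, hz0⟩ := stepA
  set r0 : F := x 0 * z0 with hr0
  -- Step B
  set M : Subgroup F := normalClosure {r0} with hMdef
  have hM : M.Normal := normalClosure_normal
  have hr0M : r0 ∈ M := subset_normalClosure (Set.mem_singleton _)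
  have hMK : ∀ K ∈ T, ¬ M ≤ K := fun K hK h => hz0 K hK (h hr0M)
  have stepB : ∀ j : Fin (m + 1), ∃ z ∈ M, ∀ K ∈ T,
      (if K ∈ Φ j then x j * z ∉ K else x j * z ∈ K) := by
    intro j
    obtain ⟨z, hzM, hz⟩ := crt T hT M hM hMK
      (fun K => (x j)⁻¹ * (if K ∈ Φ j then τ K else 1))
    refine ⟨z, hzM, ?_⟩
    intro K hK
    have h1 := hz K hK
    by_cases hj : K ∈ Φ j
    · rw [if_pos hj] at h1 ⊢
      intro hmem
      have h2 : (τ K)⁻¹ ∈ K := by
        have := K.mul_mem h1 (K.inv_mem hmem)
        simpa [mul_assoc] using this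
      exact hτ K (hT K hK) (K.inv_mem_iff.mp h2)
    · rw [if_neg hj] at h1 ⊢
      simpa using h1
  choose zB hzBM hzB using stepB
  set r1 : Fin (m + 1) → F := fun j => x j * zB j with hr1
  -- Step C
  set N' : Subgroup F := normalClosure {y | ∃ j : Fin (m + 1), j ≠ 0 ∧ r1 j = y} with hN'def
  have hN' : N'.Normal := normalClosure_normal
  have hrN' : ∀ j, j ≠ 0 → r1 j ∈ N' := fun j hj => subset_normalClosure ⟨j, hj, rfl⟩
  obtain ⟨z', hz'N, hz'⟩ := crt (T.filter (fun K => K ∉ Φ 0))
      (fun K hK => hT K (Finset.mem_filter.mp hK).1) N' hN'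
      (fun K hK => by
        obtain ⟨hKT, hK0⟩ := Finset.mem_filter.mp hK
        obtain ⟨i, -, hi⟩ := Finset.mem_biUnion.mp hKT
        have hi0 : i ≠ 0 := by
          rintro rfl
          exact hK0 hi
        intro hle
        have h1 := hzB i K hKT
        rw [if_pos hi] at h1
        exact h1 (hle (hrN' i hi0)))
      (fun _ => r0⁻¹)
  refine ⟨fun j => if j = 0 then r0 * z' else r1 j, ?_, ?_⟩
  · set R : Subgroup F := normalClosure
      (Set.range (fun j : Fin (m + 1) => if j = 0 then r0 * z' else r1 j)) with hR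
    have hRn : R.Normal := normalClosure_normal
    have hR0 : r0 * z' ∈ R := subset_normalClosure ⟨0, by simp⟩
    have hRj : ∀ j, j ≠ 0 → r1 j ∈ R := fun j hj => subset_normalClosure ⟨j, by simp [hj]⟩
    have hN'R : N' ≤ R := by
      apply normalClosure_le_normal
      rintro _ ⟨j, hj, rfl⟩
      exact hRj j hj
    have hr0R : r0 ∈ R := by
      have := R.mul_mem hR0 (R.inv_mem (hN'R hz'N))
      simpa using this
    have hMR : M ≤ R := by
      apply normalClosure_le_normal
      rintro _ rfl
      exact hr0R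
    have hxjR : ∀ j, j ≠ 0 → x j ∈ R := by
      intro j hj
      have := R.mul_mem (hRj j hj) (R.inv_mem (hMR (hzBM j)))
      simpa [hr1] using this
    have hNR : N ≤ R := by
      apply normalClosure_le_normal
      rintro _ ⟨j, hj, rfl⟩
      exact hxjR j hj
    have hx0R : x 0 ∈ R := by
      have := R.mul_mem hr0R (R.inv_mem (hNR hz0N))
      simpa [hr0] using this
    rw [eq_top_iff, ← hx]
    apply normalClosure_le_normal
    rintro _ ⟨j, rfl⟩
    by_cases hj : j = 0
    · rw [hj]; exact hx0R
    · exact hxjR j hj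
  · intro i j hij K hK
    have hKT := hΦT i K hK
    have hKj : K ∉ Φ j := hdisj i j hij K hK
    by_cases hj : j = 0
    · subst hj
      have h1 := hz' K (Finset.mem_filter.mpr ⟨hKT, hKj⟩)
      simpa using h1
    · have h1 := hzB j K hKT
      rw [if_neg hKj] at h1
      simpa [hj] using h1

end General

section Alternating

open Equiv.Perm

/-- The alternating group on a prime number `p ≥ 5` of letters is generated by two elements. -/
lemma alt_two_gen (p : ℕ) (hp : p.Prime) (h5 : 5 ≤ p) :
    ∃ s t : alternatingGroup (Fin p), closure {s, t} = ⊤ := by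
  obtain ⟨k, hk⟩ : ∃ k, p = 2 * k + 1 := by
    have := hp.eq_two_or_odd'
    rcases this with h | h
    · omega
    · obtain ⟨k, hk⟩ := h
      exact ⟨k, hk⟩
  subst hk
  set c : Equiv.Perm (Fin (2 * k + 1)) := finRotate (2 * k + 1) with hc
  have hcA : c ∈ alternatingGroup (Fin (2 * k + 1)) := finRotate_bit1_mem_alternatingGroup
  have h0 : (0 : ℕ) < 2 * k + 1 := by omega
  have h1 : (1 : ℕ) < 2 * k + 1 := by omega
  have h2 : (2 : ℕ) < 2 * k + 1 := by omega
  set t : Equiv.Perm (Fin (2 * k + 1)) :=
    Equiv.swap ⟨0, h0⟩ ⟨1, h1⟩ * Equiv.swap ⟨0, h0⟩ ⟨2, h2⟩ with ht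
  have ht3 : t.IsThreeCycle := by
    apply isThreeCycle_swap_mul_swap_same
    · simp
    · simp
    · simp
  have htA : t ∈ alternatingGroup (Fin (2 * k + 1)) := ht3.mem_alternatingGroup
  refine ⟨⟨c, hcA⟩, ⟨t, htA⟩, ?_⟩
  set G : Subgroup (Equiv.Perm (Fin (2 * k + 1))) := closure {c, t} with hG
  have hcG : c ∈ G := subset_closure (by simp)
  have htG : t ∈ G := subset_closure (by simp)
  have hcyc : c.IsCycle := isCycle_finRotate_of_le (by omega)
  have hsupp : c.support = Finset.univ := support_finRotate_of_le (by omega)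
  have htrans : MulAction.IsPretransitive G (Fin (2 * k + 1)) := by
    constructor
    intro a b
    obtain ⟨x, hx, hxy⟩ := hcyc
    have ha : c a ≠ a := by
      have : a ∈ c.support := by rw [hsupp]; exact Finset.mem_univ _
      simpa using this
    have hb : c b ≠ b := by
      have : b ∈ c.support := by rw [hsupp]; exact Finset.mem_univ _
      simpa using this
    obtain ⟨i, hi⟩ := hxy ha
    obtain ⟨j, hj⟩ := hxy hb
    refine ⟨⟨c ^ (j - i), G.zpow_mem hcG _⟩, ?_⟩
    change (c ^ (j - i)) a = b
    rw [← hi, ← hj, ← Equiv.Perm.mul_apply, ← zpow_add]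
    congr 2
    ring
  have hprim : MulAction.IsPreprimitive G (Fin (2 * k + 1)) := by
    apply MulAction.IsPreprimitive.of_prime_card
    simpa using hp
  have hle : alternatingGroup (Fin (2 * k + 1)) ≤ G :=
    alternatingGroup_le_of_isPreprimitive_of_isThreeCycle_mem hprim ht3 htG
  have hmap : (closure {(⟨c, hcA⟩ : alternatingGroup (Fin (2 * k + 1))), ⟨t, htA⟩}).map
      (alternatingGroup (Fin (2 * k + 1))).subtype = G := by
    rw [MonoidHom.map_closure]
    congr 1
    simp [Set.image_pair]
  rw [eq_top_iff]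
  intro x _
  have hx : (x : Equiv.Perm (Fin (2 * k + 1))) ∈ G := hle x.2
  rw [← hmap] at hx
  obtain ⟨y, hy, hyx⟩ := hx
  have : y = x := Subtype.ext hyx
  rw [← this]
  exact hy

lemma alt_noncomm (p : ℕ) (h5 : 5 ≤ p) :
    ∃ s t : alternatingGroup (Fin p), s * t ≠ t * s := by
  by_contra h
  push Not at h
  have hsimple : IsSimpleGroup (alternatingGroup (Fin p)) :=
    alternatingGroup.isSimpleGroup (by simpa using h5)
  have hcen : Subgroup.center (alternatingGroup (Fin p)) = ⊥ :=
    alternatingGroup.center_eq_bot (by simp; omega)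
  have hcen' : Subgroup.center (alternatingGroup (Fin p)) = ⊤ := by
    rw [eq_top_iff]
    intro x _
    rw [Subgroup.mem_center_iff]
    intro g
    exact h g x
  rw [hcen] at hcen'
  exact bot_ne_top hcen'

lemma alt_card_inj {p q : ℕ} (hp : 5 ≤ p) (hq : 5 ≤ q)
    (h : Nat.card (alternatingGroup (Fin p)) = Nat.card (alternatingGroup (Fin q))) : p = q := by
  have : Nontrivial (Fin p) := Fin.nontrivial_iff_two_le.mpr (by omega)
  have : Nontrivial (Fin q) := Fin.nontrivial_iff_two_le.mpr (by omega)
  have h1 := two_mul_nat_card_alternatingGroup (α := Fin p)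
  have h2 := two_mul_nat_card_alternatingGroup (α := Fin q)
  rw [h, h2] at h1
  rw [Nat.card_perm, Nat.card_perm] at h1
  simp only [Nat.card_eq_fintype_card, Fintype.card_fin] at h1
  exact (Nat.factorial_inj (by omega)).mp h1.symm

end Alternating

section Free

/-- A sequence of pairwise distinct primes, all at least `5`. -/
noncomputable def pr (i : ℕ) : ℕ := Nat.nth Nat.Prime (i + 2)

lemma pr_prime (i : ℕ) : (pr i).Prime := Nat.prime_nth_prime _

lemma five_le_pr (i : ℕ) : 5 ≤ pr i := by
  have h1 : i + 2 + 2 ≤ pr i := Nat.add_two_le_nth_prime (i + 2)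
  have h2 := pr_prime i
  rcases Nat.lt_or_ge (pr i) 5 with h | h
  · exfalso
    have h3 : pr i = 4 := by omega
    rw [h3] at h2
    exact absurd h2 (by decide)
  · exact h

lemma pr_injective : Function.Injective pr := by
  intro i j h
  have := (Nat.nth_strictMono Nat.infinite_setOfPred_prime).injective h
  omega

/-- A basis of a free group on `Fin n` has exactly `n` elements. -/
lemma basis_card {n : ℕ} {ι : Type} (b : FreeGroupBasis ι (FreeGroup (Fin n))) :
    Finite ι ∧ Nat.card ι = n := by
  classical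
  let C := Multiplicative (ZMod 2)
  have e : (ι → C) ≃ (Fin n → C) :=
    (b.lift (H := C)).trans (FreeGroup.lift (α := Fin n) (β := C)).symm
  have hfin : Finite (Fin n → C) := inferInstance
  have hfin' : Finite (ι → C) := Finite.of_equiv _ e.symm
  have hι : Finite ι := by
    refine Finite.of_injective (fun i : ι => (Pi.mulSingle i (Multiplicative.ofAdd (1 : ZMod 2)) : ι → C)) ?_
    intro i j hij
    by_contra hne
    have h1 := congrFun hij i
    simp only [Pi.mulSingle_eq_same, Pi.mulSingle_eq_of_ne hne] at h1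
    exact absurd h1 (by decide)
  refine ⟨hι, ?_⟩
  have h1 := Nat.card_congr e
  rw [Nat.card_fun, Nat.card_fun] at h1
  have h2 : Nat.card C = 2 := by simp [C]
  rw [h2, Nat.card_eq_fintype_card (α := Fin n), Fintype.card_fin] at h1
  exact Nat.pow_right_injective le_rfl h1

lemma exists_surj_kill {n : ℕ} (hn : 3 ≤ n) {p : FreeGroup (Fin n)} (hp : IsPrimitiveElt p)
    (i : ℕ) : ∃ φ : FreeGroup (Fin n) →* alternatingGroup (Fin (pr i)),
      Function.Surjective φ ∧ φ p = 1 := by
  classical
  obtain ⟨ι, b, i0, hb⟩ := hp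
  obtain ⟨hfin, hcard⟩ := basis_card b
  have := Fintype.ofFinite ι
  rw [Nat.card_eq_fintype_card] at hcard
  obtain ⟨j1, hj1⟩ : ∃ j1, j1 ≠ i0 := by
    have : 1 < Fintype.card ι := by omega
    have := Fintype.one_lt_card_iff_nontrivial.mp this
    exact exists_ne i0
  obtain ⟨j2, hj2⟩ : ∃ j2, j2 ∉ ({i0, j1} : Finset ι) := by
    by_contra h
    push Not at h
    have h1 : (Finset.univ : Finset ι) ⊆ {i0, j1} := fun x _ => h x
    have h2 := Finset.card_le_card h1
    rw [Finset.card_univ, hcard] at h2
    have h3 : ({i0, j1} : Finset ι).card ≤ 2 := Finset.card_le_two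
    omega
  simp only [Finset.mem_insert, Finset.mem_singleton, not_or] at hj2
  obtain ⟨s, t, hst⟩ := alt_two_gen (pr i) (pr_prime i) (five_le_pr i)
  let f : ι → alternatingGroup (Fin (pr i)) := fun j => if j = j1 then s else if j = j2 then t else 1
  have hfb : ∀ j, b.lift f (b j) = f j := by
    intro j
    have h1 := congrFun (b.lift.symm_apply_apply f) j
    simpa using h1
  refine ⟨b.lift f, ?_, ?_⟩
  · rw [← MonoidHom.range_eq_top, eq_top_iff, ← hst, closure_le]
    rintro x hx
    rcases hx with rfl | hx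
    · refine ⟨b j1, ?_⟩
      rw [hfb]
      simp [f]
    · rw [Set.mem_singleton_iff] at hx
      subst hx
      refine ⟨b j2, ?_⟩
      rw [hfb]
      simp [f, hj2.2]
  · rw [← hb, hfb]
    simp only [f]
    rw [if_neg (Ne.symm hj1), if_neg (Ne.symm hj2.1)]

end Free

/-- **Negative answer to Stallings' question** for presentations of any rank `n ≥ 3` with any
number `m ≥ n` of relators. -/
theorem result (n m : ℕ) (hn : 3 ≤ n) (hm : n ≤ m) :
    ∃ r : Fin m → FreeGroup (Fin n),
      Subsingleton (PresentedGroup (Set.range r)) ∧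
      ∀ (i : Fin m) (p : FreeGroup (Fin n)), IsPrimitiveElt p →
        Nontrivial (PresentedGroup (Set.range (Function.update r i p))) := by
  classical
  obtain ⟨m, rfl⟩ : ∃ m', m = m' + 1 := ⟨m - 1, by omega⟩
  have hfinhom : ∀ i : ℕ, Finite (FreeGroup (Fin n) →* alternatingGroup (Fin (pr i))) := by
    intro i
    exact Finite.of_equiv _ (FreeGroup.lift (α := Fin n) (β := alternatingGroup (Fin (pr i))))
  have hfinset : ∀ i : Fin (m + 1), {K : Subgroup (FreeGroup (Fin n)) |
      ∃ φ : FreeGroup (Fin n) →* alternatingGroup (Fin (pr i)),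
        Function.Surjective φ ∧ φ.ker = K}.Finite := by
    intro i
    have := hfinhom i
    apply (Set.finite_range
      (fun φ : FreeGroup (Fin n) →* alternatingGroup (Fin (pr i)) => φ.ker)).subset
    rintro K ⟨φ, -, rfl⟩
    exact ⟨φ, rfl⟩
  let Φ : Fin (m + 1) → Finset (Subgroup (FreeGroup (Fin n))) := fun i => (hfinset i).toFinset
  have hmemΦ : ∀ i K, K ∈ Φ i ↔ ∃ φ : FreeGroup (Fin n) →* alternatingGroup (Fin (pr i)),
        Function.Surjective φ ∧ φ.ker = K := by
    intro i K
    simp [Φ]
  have hΦ : ∀ i, ∀ K ∈ Φ i, NS K := by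
    intro i K hK
    rw [hmemΦ] at hK
    obtain ⟨φ, hφ, rfl⟩ := hK
    have hsimple : IsSimpleGroup (alternatingGroup (Fin (pr i))) :=
      alternatingGroup.isSimpleGroup (by simpa using five_le_pr i)
    exact NS.of_ker (alt_noncomm (pr i) (five_le_pr i)) φ hφ
  have hindex : ∀ i K, K ∈ Φ i → K.index = Nat.card (alternatingGroup (Fin (pr i))) := by
    intro i K hK
    rw [hmemΦ] at hK
    obtain ⟨φ, hφ, rfl⟩ := hK
    rw [Subgroup.index_ker, MonoidHom.range_eq_top.mpr hφ]
    exact Nat.card_congr Subgroup.topEquiv.toEquiv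
  have hdisj : ∀ i j : Fin (m + 1), i ≠ j → ∀ K ∈ Φ i, K ∉ Φ j := by
    intro i j hij K hKi hKj
    have h1 := hindex i K hKi
    rw [hindex j K hKj] at h1
    have h2 := alt_card_inj (five_le_pr j) (five_le_pr i) h1
    exact hij (Fin.ext (pr_injective h2).symm)
  let x : Fin (m + 1) → FreeGroup (Fin n) := fun j =>
    if h : (j : ℕ) < n then FreeGroup.of ⟨j, h⟩ else 1
  have hx : normalClosure (Set.range x) = ⊤ := by
    rw [eq_top_iff, ← FreeGroup.closure_range_of, closure_le]
    rintro _ ⟨a, rfl⟩
    apply subset_normalClosure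
    refine ⟨⟨a, by omega⟩, ?_⟩
    simp [x]
  obtain ⟨r, hr, hrK⟩ := main_comb Φ hΦ hdisj x hx
  refine ⟨r, ?_, ?_⟩
  · rw [PresentedGroup, hr]
    exact QuotientGroup.subsingleton_quotient_top
  · intro i p hp
    obtain ⟨φ, hφ, hφp⟩ := exists_surj_kill hn hp i
    have hK : φ.ker ∈ Φ i := (hmemΦ i _).mpr ⟨φ, hφ, rfl⟩
    have hle : normalClosure (Set.range (Function.update r i p)) ≤ φ.ker := by
      apply normalClosure_le_normal
      rintro _ ⟨j, rfl⟩
      by_cases hj : j = i
      · subst hj
        simpa using hφp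
      · rw [Function.update_of_ne hj]
        exact hrK i j (Ne.symm hj) _ hK
    by_contra hcon
    rw [not_nontrivial_iff_subsingleton] at hcon
    have htop : normalClosure (Set.range (Function.update r i p)) = ⊤ :=
      QuotientGroup.subgroup_eq_top_of_subsingleton _ hcon
    rw [htop, top_le_iff] at hle
    exact (hΦ i _ hK).ne_top hle

end Pool.Agent.Results.MP_4f7194_al.Stallings
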